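import Pool.Agent.D0H23.TH.Irr

/-!
# Module ALGB of project TH (helper45)
-/

set_option autoImplicit false

namespace Pool.Agent.D0H23.TH

open Module Pool.Agent.D0H45.TH

section

variable {F V G : Type} [Field F] [AddCommGroup V] [Module F V] [Group G]

/-- the representation on the quotient by a stable subspace -/
noncomputable def quo (T : G →* Module.End F V) (W : Submodule F V)
    (h : ∀ g, ∀ x ∈ W, T g x ∈ W) : G →* Module.End F (V ⧸ W) where
  toFun g := W.mapQ W (T g) (h g)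
  map_one' := by
    apply LinearMap.ext
    intro x
    obtain ⟨x, rfl⟩ := W.mkQ_surjective x
    simp
  map_mul' g g' := by
    apply LinearMap.ext
    intro x
    obtain ⟨x, rfl⟩ := W.mkQ_surjective x
    simp

theorem quo_apply (T : G →* Module.End F V) (W : Submodule F V)
    (h : ∀ g, ∀ x ∈ W, T g x ∈ W) (g : G) (x : V) : quo T W h g (W.mkQ x) = W.mkQ (T g x) := rfl

/-- connectedness passes to subspaces -/
theorem conn_sub {ρ : G →* Module.End F V} {ψ : G → F} {U : Subgroup G} {𝓤 : Set (Subgroup G)}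
    (hC : Conn ρ ψ U 𝓤) (W : Submodule F V) (h : ∀ g, ∀ x ∈ W, ρ g x ∈ W) :
    Conn (rep ρ W h) ψ U 𝓤 := by
  refine ⟨hC.mem, hC.le, ?_⟩
  intro U' hU' L hL u hu
  obtain ⟨p, hp⟩ := W.subtype.exists_leftInverse_of_injective (Submodule.ker_subtype W)
  have hpx : ∀ x : W, p (x : V) = x := fun x => LinearMap.congr_fun hp x
  let L' : Module.End F V →ₗ[F] F :=
    L ∘ₗ (LinearMap.llcomp F W V W p) ∘ₗ (LinearMap.lcomp F V W.subtype)
  have hL1 : ∀ g : G, ∀ c : F, L' (c • ρ g) = L (c • rep ρ W h g) := by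
    intro g c
    change L (p ∘ₗ (c • ρ g) ∘ₗ W.subtype) = _
    congr 1
    ext x
    have h1 : p ((rep ρ W h g x : W) : V) = rep ρ W h g x := hpx _
    rw [rep_apply] at h1
    simp only [LinearMap.comp_apply, Submodule.subtype_apply, LinearMap.smul_apply, map_smul]
    rw [h1]
  have h2 : L' 1 = L 1 := by
    have h3 := hL1 1 1
    simpa using h3
  rw [← hL1, ← h2]
  refine hC.const U' hU' L' ?_ u hu
  refine hL.subset ?_
  rintro x ⟨v, hv, rfl⟩
  exact ⟨v, hv, hL1 v _⟩

/-- connectedness passes to quotients -/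
theorem conn_quo {ρ : G →* Module.End F V} {ψ : G → F} {U : Subgroup G} {𝓤 : Set (Subgroup G)}
    (hC : Conn ρ ψ U 𝓤) (W : Submodule F V) (h : ∀ g, ∀ x ∈ W, ρ g x ∈ W) :
    Conn (quo ρ W h) ψ U 𝓤 := by
  refine ⟨hC.mem, hC.le, ?_⟩
  intro U' hU' L hL u hu
  obtain ⟨s, hs⟩ := W.mkQ.exists_rightInverse_of_surjective (Submodule.range_mkQ W)
  have hsx : ∀ x : V ⧸ W, W.mkQ (s x) = x := fun x => LinearMap.congr_fun hs x
  let L' : Module.End F V →ₗ[F] F :=
    L ∘ₗ (LinearMap.llcomp F (V ⧸ W) V (V ⧸ W) W.mkQ) ∘ₗ (LinearMap.lcomp F V s)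
  have hL1 : ∀ g : G, ∀ c : F, L' (c • ρ g) = L (c • quo ρ W h g) := by
    intro g c
    change L (W.mkQ ∘ₗ (c • ρ g) ∘ₗ s) = _
    congr 1
    apply LinearMap.ext
    intro x
    simp only [LinearMap.comp_apply, LinearMap.smul_apply, map_smul]
    rw [← quo_apply ρ W h, hsx]
  have h2 : L' 1 = L 1 := by
    have h3 := hL1 1 1
    simpa using h3
  rw [← hL1, ← h2]
  refine hC.const U' hU' L' ?_ u hu
  refine hL.subset ?_
  rintro x ⟨v, hv, rfl⟩
  exact ⟨v, hv, hL1 v _⟩

end

/-- eigenvalues on a stable subspace -/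
theorem eig_sub {F V W : Type} [Field F] [AddCommGroup V] [Module F V] [AddCommGroup W] [Module F W]
    (ι : W →ₗ[F] V) (hι : Function.Injective ι) (T : Module.End F V) (S : Module.End F W)
    (h : ∀ x, T (ι x) = ι (S x)) (κ : F) (hκ : S.HasEigenvalue κ) : T.HasEigenvalue κ := by
  obtain ⟨w, hw⟩ := hκ.exists_hasEigenvector
  apply Module.End.hasEigenvalue_of_hasEigenvector (x := ι w)
  refine ⟨?_, fun h0 => hw.2 (hι (h0.trans (map_zero ι).symm))⟩
  rw [Module.End.mem_eigenspace_iff, h, ← map_smul]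
  congr 1
  exact Module.End.mem_eigenspace_iff.mp hw.1

/-- eigenvalues on a quotient -/
theorem eig_quo {F V W : Type} [Field F] [AddCommGroup V] [Module F V] [Module.Finite F V]
    [AddCommGroup W] [Module F W]
    (π : V →ₗ[F] W) (hπ : Function.Surjective π) (T : Module.End F V) (S : Module.End F W)
    (h : ∀ x, S (π x) = π (T x)) (κ : F) (hκ : S.HasEigenvalue κ) : T.HasEigenvalue κ := by
  have : Module.Finite F W := Module.Finite.of_surjective π hπ
  by_contra hT
  have h1 : LinearMap.ker (T - κ • (1 : Module.End F V)) = ⊥ := by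
    by_contra h2
    obtain ⟨x, hx, hx0⟩ := Submodule.exists_mem_ne_zero_of_ne_bot h2
    apply hT
    apply Module.End.hasEigenvalue_of_hasEigenvector (x := x)
    refine ⟨?_, hx0⟩
    rw [Module.End.mem_eigenspace_iff, ← sub_eq_zero]
    simpa using hx
  have h2 : Function.Surjective (T - κ • (1 : Module.End F V)) :=
    LinearMap.injective_iff_surjective.mp (LinearMap.ker_eq_bot.mp h1)
  have h3 : Function.Surjective (S - κ • (1 : Module.End F W)) := by
    intro w
    obtain ⟨v, rfl⟩ := hπ w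
    obtain ⟨v', rfl⟩ := h2 v
    refine ⟨π v', ?_⟩
    simp [h]
  have h4 := LinearMap.injective_iff_surjective.mpr h3
  obtain ⟨w, hw⟩ := hκ.exists_hasEigenvector
  apply hw.2
  apply h4
  rw [map_zero]
  have h5 := Module.End.mem_eigenspace_iff.mp hw.1
  simp [h5]

/-- nilpotent on a stable subspace and on the quotient -/
theorem nil_ext {F V : Type} [Field F] [AddCommGroup V] [Module F V] (W : Submodule F V)
    (D : Module.End F V) (D₁ : Module.End F W) (D₂ : Module.End F (V ⧸ W))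
    (h1 : ∀ x : W, ((D₁ x : W) : V) = D x) (h2 : ∀ x : V, D₂ (W.mkQ x) = W.mkQ (D x))
    (hn1 : IsNilpotent D₁) (hn2 : IsNilpotent D₂) : IsNilpotent D := by
  obtain ⟨a, ha⟩ := hn1
  obtain ⟨b, hb⟩ := hn2
  refine ⟨a + b, ?_⟩
  have h3 : ∀ (n : ℕ) (x : W), (((D₁ ^ n) x : W) : V) = (D ^ n) x := by
    intro n
    induction n with
    | zero => intro x; simp
    | succ n ih => intro x; rw [pow_succ, Module.End.mul_apply, ih, h1, pow_succ, Module.End.mul_apply]
  have h4 : ∀ (n : ℕ) (x : V), (D₂ ^ n) (W.mkQ x) = W.mkQ ((D ^ n) x) := by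
    intro n
    induction n with
    | zero => intro x; simp
    | succ n ih => intro x; rw [pow_succ, Module.End.mul_apply, h2, ih, pow_succ, Module.End.mul_apply]
  apply LinearMap.ext
  intro x
  have h5 : (D ^ b) x ∈ W := by
    have h6 := h4 b x
    rw [hb, LinearMap.zero_apply] at h6
    exact (Submodule.Quotient.mk_eq_zero W).mp h6.symm
  have h7 := h3 a ⟨_, h5⟩
  rw [ha] at h7
  rw [pow_add, Module.End.mul_apply]
  simpa using h7.symm

/-- the twisted embedding -/
theorem exists_twist {F V G ι : Type} [Field F] [AddCommGroup V] [Module F V] [Module.Finite F V]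
    [Group G] (ρ : G →* Module.End F V) (U : Subgroup G) (hU : U.Normal) (W : Submodule F V)
    (hW0 : W ≠ ⊥) (hWU : ∀ u ∈ U, ∀ x ∈ W, ρ u x ∈ W)
    (hirr : ∀ W' : Submodule F V, W' ≤ W → (∀ u ∈ U, ∀ x ∈ W', ρ u x ∈ W') → W' = ⊥ ∨ W' = W)
    (t : ι → G) (htop : ⨆ i, W.map (ρ (t i)) = ⊤) :
    ∃ i, ∃ A : Module.End F W, Function.Injective A ∧ ∀ u ∈ U, ∀ z z' z'' : W,
      (z' : V) = ρ u z → (z'' : V) = ρ (t i * u * (t i)⁻¹) (A z) → A z' = z'' := by
  obtain ⟨C, hCS, hmax⟩ := WellFounded.has_min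
    (wellFounded_gt : WellFounded (fun a b : Submodule F V => a > b))
    {C : Submodule F V | (∀ u ∈ U, ∀ x ∈ C, ρ u x ∈ C) ∧ ¬ W ≤ C}
    ⟨⊥, by
      refine ⟨?_, ?_⟩
      · intro u hu x hx
        rw [Submodule.mem_bot] at hx ⊢
        rw [hx, map_zero]
      · rwa [le_bot_iff]⟩
  obtain ⟨hCU, hWC⟩ := hCS
  obtain ⟨i, hi⟩ : ∃ i, ¬ W.map (ρ (t i)) ≤ C := by
    by_contra hcon
    push Not at hcon
    exact hWC (le_top.trans (htop ▸ iSup_le hcon))
  have hconj : ∀ u ∈ U, (t i)⁻¹ * u * t i ∈ U := by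
    intro u hu
    simpa using hU.conj_mem u hu (t i)⁻¹
  have hmv : ∀ u x, ρ (t i) (ρ ((t i)⁻¹ * u * t i) x) = ρ u (ρ (t i) x) := by
    intro u x
    rw [← Module.End.mul_apply, ← map_mul, ← Module.End.mul_apply, ← map_mul]
    congr 2
    group
  have hstab : ∀ u ∈ U, ∀ x ∈ C ⊔ W.map (ρ (t i)), ρ u x ∈ C ⊔ W.map (ρ (t i)) := by
    intro u hu x hx
    obtain ⟨a, ha, b, ⟨w, hw, rfl⟩, rfl⟩ := Submodule.mem_sup.mp hx
    rw [map_add]
    exact Submodule.add_mem_sup (hCU u hu a ha)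
      ⟨ρ ((t i)⁻¹ * u * t i) w, hWU _ (hconj u hu) w hw, hmv u w⟩
  have hW' : W ≤ C ⊔ W.map (ρ (t i)) := by
    by_contra hcon
    exact hmax _ ⟨hstab, hcon⟩ (lt_of_le_of_ne le_sup_left fun e => hi (le_sup_right.trans e.ge))
  have huniq : ∀ z : W, ρ (t i) (z : V) ∈ C → z = 0 := by
    rcases hirr (W ⊓ C.comap (ρ (t i))) inf_le_left (by
      rintro u hu x ⟨hx, hx2⟩
      refine ⟨hWU u hu x hx, ?_⟩
      change ρ (t i) (ρ u x) ∈ C
      have h1 := hCU _ (hU.conj_mem u hu (t i)) _ hx2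
      rw [← Module.End.mul_apply, ← map_mul] at h1 ⊢
      rwa [inv_mul_cancel_right] at h1) with h1 | h1
    · intro z hz
      have h2 : (z : V) ∈ W ⊓ C.comap (ρ (t i)) := ⟨z.2, hz⟩
      rw [h1, Submodule.mem_bot] at h2
      exact Subtype.ext h2
    · exfalso
      apply hi
      rintro _ ⟨w, hw, rfl⟩
      rw [← h1] at hw
      exact hw.2
  have hinf : ∀ w : W, (w : V) ∈ C → w = 0 := by
    rcases hirr (W ⊓ C) inf_le_left (by
      rintro u hu x ⟨hx, hx2⟩
      exact ⟨hWU u hu x hx, hCU u hu x hx2⟩) with h1 | h1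
    · intro z hz
      have h2 : (z : V) ∈ W ⊓ C := ⟨z.2, hz⟩
      rw [h1, Submodule.mem_bot] at h2
      exact Subtype.ext h2
    · exfalso
      apply hWC
      rw [← h1]
      exact inf_le_right
  have hex : ∀ w : W, ∃ z : W, (w : V) - ρ (t i) z ∈ C := by
    intro w
    obtain ⟨a, ha, b, ⟨z, hz, rfl⟩, hab⟩ := Submodule.mem_sup.mp (hW' w.2)
    refine ⟨⟨z, hz⟩, ?_⟩
    rw [← hab]
    simpa using ha
  choose B hB using hex
  have hBu : ∀ w z : W, (w : V) - ρ (t i) z ∈ C → B w = z := by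
    intro w z hz
    have h1 := C.sub_mem hz (hB w)
    rw [sub_sub_sub_cancel_left, ← map_sub] at h1
    exact sub_eq_zero.mp (huniq (B w - z) h1)
  let BL : W →ₗ[F] W :=
    { toFun := B
      map_add' := fun w w' => hBu _ _ (by
        have h1 := C.add_mem (hB w) (hB w')
        have h2 : ((w + w' : W) : V) - ρ (t i) ((B w + B w' : W) : V) =
          (w : V) - ρ (t i) (B w) + ((w' : V) - ρ (t i) (B w')) := by
          rw [Submodule.coe_add, Submodule.coe_add, map_add]; abel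
        rw [h2]; exact h1)
      map_smul' := fun a w => hBu _ _ (by
        have h1 := C.smul_mem a (hB w)
        have h2 : ((a • w : W) : V) - ρ (t i) ((a • B w : W) : V) =
          a • ((w : V) - ρ (t i) (B w)) := by
          rw [Submodule.coe_smul, Submodule.coe_smul, map_smul, smul_sub]
        rw [RingHom.id_apply, h2]; exact h1) }
  have hBL : ∀ w, BL w = B w := fun w => rfl
  have hBinj : Function.Injective BL := by
    rw [injective_iff_map_eq_zero]
    intro w hw
    apply hinf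
    have h1 := hB w
    rw [← hBL, hw, Submodule.coe_zero, map_zero, sub_zero] at h1
    exact h1
  let e := LinearEquiv.ofInjectiveEndo BL hBinj
  have he : ∀ w, e w = B w := fun w => rfl
  refine ⟨i, e.symm.toLinearMap, e.symm.injective, ?_⟩
  intro u hu z z' z'' h1 h2
  change e.symm z' = z''
  rw [LinearEquiv.symm_apply_eq, he]
  symm
  apply hBu
  have h3 : z = B (e.symm z) := by
    rw [← he, LinearEquiv.apply_symm_apply]
  have h4 := hCU _ (hU.conj_mem u hu (t i)) _ (hB (e.symm z))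
  rw [← h3, map_sub] at h4
  rw [h1, h2]
  have h5 : ρ (t i * u * (t i)⁻¹) (ρ (t i) (z : V)) = ρ (t i) (ρ u (z : V)) := by
    rw [← Module.End.mul_apply, ← map_mul, inv_mul_cancel_right, map_mul, Module.End.mul_apply]
  rw [h5] at h4
  exact h4

/-- the irreducible case -/
theorem irr_case (hIRR : S_IRR) {F V G : Type} [Field F] [IsAlgClosed F] [CharZero F]
    [AddCommGroup V] [Module F V] [Module.Finite F V] [Group G] (ρ : G →* Module.End F V)
    (U : Subgroup G) (ψ : G → F) (𝓤 : Set (Subgroup G)) (hU : U.Normal) (hfin : Finite (G ⧸ U))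
    (hψ : Tw ψ U) (hC : Conn ρ ψ U 𝓤) (N : ℕ) (hN : finrank F V ≤ N) (Bad : Set (G ⧸ U))
    (hBad : Bad.ncard * N < Nat.card (G ⧸ U))
    (hev : ∀ g : G, (g : G ⧸ U) ∉ Bad → ∃ y, g⁻¹ * y ∈ U ∧ ∃ U' ∈ 𝓤, ∃ Λ : Set F, Λ.Finite ∧
        ∀ u ∈ U', ∀ κ : F, (ρ y * (ψ u • ρ u)).HasEigenvalue κ → κ ∈ Λ)
    (hV : ∀ V₁ : Submodule F V, (∀ g, ∀ x ∈ V₁, ρ g x ∈ V₁) → V₁ = ⊥ ∨ V₁ = ⊤) :
    ∀ u ∈ U, IsNilpotent (ψ u • ρ u - 1) := by
  let VU : Submodule F V :=
    { carrier := {x | ∀ u ∈ U, ψ u • ρ u x = x}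
      add_mem' := fun {a b} ha hb u hu => by rw [map_add, smul_add, ha u hu, hb u hu]
      zero_mem' := fun u hu => by rw [map_zero, smul_zero]
      smul_mem' := fun c x hx u hu => by rw [map_smul, smul_comm, hx u hu] }
  have hVU : ∀ g, ∀ x ∈ VU, ρ g x ∈ VU := by
    intro g x hx u hu
    have h1 := hx (g⁻¹ * u * g) (by simpa using hU.conj_mem u hu g⁻¹)
    have h2 : ψ (g⁻¹ * u * g) = ψ u := by simpa using hψ.conj u hu g⁻¹
    rw [h2] at h1
    conv_rhs => rw [← h1, map_smul]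
    rw [← Module.End.mul_apply, ← map_mul, ← Module.End.mul_apply, ← map_mul]
    congr 3
    group
  rcases hV VU hVU with h0 | h0
  swap
  · intro u hu
    have h1 : ψ u • ρ u - 1 = 0 := by
      apply LinearMap.ext
      intro x
      have h2 : x ∈ VU := h0 ▸ Submodule.mem_top
      rw [LinearMap.sub_apply, LinearMap.smul_apply, h2 u hu]
      simp
    rw [h1]
    exact IsNilpotent.zero
  rcases subsingleton_or_nontrivial V with hs | hs
  · intro u hu
    have h1 : ψ u • ρ u - 1 = 0 := by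
      apply LinearMap.ext
      intro x
      exact Subsingleton.elim _ _
    rw [h1]
    exact IsNilpotent.zero
  exfalso
  -- a minimal stable subspace
  obtain ⟨W, ⟨hW0, hWU⟩, hmin⟩ := WellFounded.has_min
    (wellFounded_lt : WellFounded (fun a b : Submodule F V => a < b))
    {W : Submodule F V | W ≠ ⊥ ∧ ∀ u ∈ U, ∀ x ∈ W, ρ u x ∈ W}
    ⟨⊤, top_ne_bot, fun u hu x hx => Submodule.mem_top⟩
  have hirr : ∀ W' : Submodule F V, W' ≤ W → (∀ u ∈ U, ∀ x ∈ W', ρ u x ∈ W') →
      W' = ⊥ ∨ W' = W := by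
    intro W' hle h
    by_cases h1 : W' = ⊥
    · left; exact h1
    right
    by_contra h2
    exact hmin W' ⟨h1, h⟩ (lt_of_le_of_ne hle h2)
  -- generators
  set s : Set V := ⋃ x : G, (W.map (ρ x) : Set V) with hs'
  have hspan : Submodule.span F s = ⊤ := by
    rcases hV (Submodule.span F s) (by
      intro g x hx
      have h1 : Submodule.span F s ≤ (Submodule.span F s).comap (ρ g) := by
        rw [Submodule.span_le]
        intro z hz
        obtain ⟨x, hx⟩ := Set.mem_iUnion.mp hz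
        obtain ⟨w, hw, rfl⟩ := hx
        apply Submodule.subset_span
        refine Set.mem_iUnion.mpr ⟨g * x, w, hw, ?_⟩
        rw [map_mul, Module.End.mul_apply]
      exact h1 hx) with h1 | h1
    · exfalso
      apply hW0
      rw [Submodule.eq_bot_iff]
      intro w hw
      have h2 : w ∈ Submodule.span F s := Submodule.subset_span
        (Set.mem_iUnion.mpr ⟨1, w, hw, by simp⟩)
      rw [h1, Submodule.mem_bot] at h2
      exact h2
    · exact h1
  obtain ⟨f, hf, hf2, -⟩ := Submodule.exists_fun_fin_finrank_span_eq F s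
  have hf' : ∀ i, ∃ x : G, f i ∈ W.map (ρ x) := fun i => Set.mem_iUnion.mp (hf i)
  choose x hx using hf'
  have htop : ⨆ i, W.map (ρ (x i)) = ⊤ := by
    refine top_le_iff.mp (hspan.symm.le.trans (hf2.symm.le.trans (Submodule.span_le.mpr ?_)))
    rintro _ ⟨i, rfl⟩
    exact Submodule.mem_iSup_of_mem i (hx i)
  have hd : finrank F (Submodule.span F s) ≤ N := (Submodule.finrank_le _).trans hN
  -- the translates of `Bad` cover
  have hcov : ∀ g : G, ∃ i, ((g * x i : G) : G ⧸ U) ∈ Bad := by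
    intro g
    have htop' : ⨆ i, W.map (ρ (g * x i)) = ⊤ := by
      have h1 : ∀ i, W.map (ρ (g * x i)) = (W.map (ρ (x i))).map (ρ g) := by
        intro i
        rw [map_mul, Module.End.mul_eq_comp, Submodule.map_comp]
      simp_rw [h1]
      rw [← Submodule.map_iSup, htop, Submodule.map_top, LinearMap.range_eq_top]
      intro v
      refine ⟨ρ g⁻¹ v, ?_⟩
      rw [← Module.End.mul_apply, ← map_mul, mul_inv_cancel, map_one, Module.End.one_apply]
    obtain ⟨i, A₀, hA₀, hA₁⟩ := exists_twist ρ U hU W hW0 hWU hirr (fun i => g * x i) htop'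
    refine ⟨i, ?_⟩
    by_contra hbad
    obtain ⟨y, hy, hyev⟩ := hev (g * x i) hbad
    set h := g * x i with hh
    set v := h⁻¹ * y with hv
    have hyv : y = h * v := by rw [hv, mul_inv_cancel_left]
    set Rv : Module.End F W := (ρ v).restrict (hWU v hy) with hRv
    have hRv' : ∀ w : W, ((Rv w : W) : V) = ρ v w := fun w => rfl
    have hRinj : Function.Injective Rv := by
      intro a b hab
      have h1 : ρ v (a : V) = ρ v (b : V) := congrArg Subtype.val hab
      have h2 := congrArg (ρ v⁻¹) h1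
      rw [← Module.End.mul_apply, ← map_mul, ← Module.End.mul_apply, ← map_mul, inv_mul_cancel,
        map_one, Module.End.one_apply, Module.End.one_apply] at h2
      exact Subtype.ext h2
    have hW1 := hIRR F V G ρ U ψ 𝓤 hU hfin hψ hC W hWU hirr y (A₀ * Rv) (hA₀.comp hRinj) (by
      intro u hu z z' z'' h1 h2
      rw [Module.End.mul_apply] at h2 ⊢
      refine hA₁ (v * u * v⁻¹) (hU.conj_mem u hu v) (Rv z) (Rv z') z'' ?_ ?_
      · rw [hRv', hRv', h1, ← Module.End.mul_apply, ← map_mul, ← Module.End.mul_apply, ← map_mul]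
        congr 2
        group
      · rw [h2]
        congr 2
        rw [hyv]
        group) hyev
    apply hW0
    rw [Submodule.eq_bot_iff]
    intro w hw
    have h3 : w ∈ VU := fun u hu => hW1 u hu w hw
    rw [h0, Submodule.mem_bot] at h3
    exact h3
  -- counting
  have hcov' : ∀ q : G ⧸ U, ∃ i, q * ((x i : G) : G ⧸ U) ∈ Bad := by
    intro q
    obtain ⟨g, rfl⟩ := QuotientGroup.mk_surjective q
    exact hcov g
  choose c hc using hcov'
  have hinj : Function.Injective (fun q : G ⧸ U =>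
      ((⟨q * ((x (c q) : G) : G ⧸ U), hc q⟩, c q) :
        Bad × Fin (finrank F (Submodule.span F s)))) := by
    intro q q' hqq
    have h1 := congrArg Prod.snd hqq
    have h2 := congrArg (fun z => ((z.1 : Bad) : G ⧸ U)) hqq
    simp only at h1 h2
    rw [h1] at h2
    exact mul_right_cancel h2
  have h1 := Nat.card_le_card_of_injective _ hinj
  rw [Nat.card_prod, Nat.card_fin, Nat.card_coe_set_eq] at h1
  have h2 := Nat.mul_le_mul_left Bad.ncard hd
  omega

theorem t_ALGB : S_IRR → S_ALGB := by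
  intro hIRR F V G _ _ _ _ _ _ _ ρ U ψ 𝓤 hU hfin hψ hC N hN Bad hBad hev
  revert ρ V
  suffices h : ∀ d : ℕ, ∀ (V : Type) [AddCommGroup V] [Module F V] [Module.Finite F V]
      (ρ : G →* Module.End F V), finrank F V = d → Conn ρ ψ U 𝓤 → finrank F V ≤ N →
      (∀ g : G, (g : G ⧸ U) ∉ Bad → ∃ y, g⁻¹ * y ∈ U ∧ ∃ U' ∈ 𝓤, ∃ Λ : Set F, Λ.Finite ∧
        ∀ u ∈ U', ∀ κ : F, (ρ y * (ψ u • ρ u)).HasEigenvalue κ → κ ∈ Λ) →
      ∀ u ∈ U, IsNilpotent (ψ u • ρ u - 1) by
    intro V _ _ _ ρ hC hN hev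
    exact h _ V ρ rfl hC hN hev
  intro d
  induction d using Nat.strong_induction_on with
  | _ d ih =>
    intro V _ _ _ ρ hd hC hN hev
    by_cases hV : ∀ V₁ : Submodule F V, (∀ g, ∀ x ∈ V₁, ρ g x ∈ V₁) → V₁ = ⊥ ∨ V₁ = ⊤
    · exact irr_case hIRR ρ U ψ 𝓤 hU hfin hψ hC N hN Bad hBad hev hV
    push Not at hV
    obtain ⟨V₁, hst, hbot, htop⟩ := hV
    have hd1 : finrank F V₁ < d := hd ▸ Submodule.finrank_lt htop
    have hd2 : finrank F (V ⧸ V₁) < d := by
      have h1 := V₁.finrank_quotient_add_finrank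
      have h2 : 0 < finrank F V₁ := by
        rw [Nat.pos_iff_ne_zero]
        intro h3
        exact hbot (Submodule.finrank_eq_zero.mp h3)
      omega
    have e1 := ih _ hd1 V₁ (rep ρ V₁ hst) rfl (conn_sub hC V₁ hst) (by omega) (by
      intro g hg
      obtain ⟨y, hy, U', hU', Λ, hΛ, h1⟩ := hev g hg
      refine ⟨y, hy, U', hU', Λ, hΛ, ?_⟩
      intro u hu κ hκ
      exact h1 u hu κ (eig_sub V₁.subtype V₁.injective_subtype _ _ (fun x => rfl) κ hκ))
    have e2 := ih _ hd2 (V ⧸ V₁) (quo ρ V₁ hst) rfl (conn_quo hC V₁ hst) (by omega) (by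
      intro g hg
      obtain ⟨y, hy, U', hU', Λ, hΛ, h1⟩ := hev g hg
      refine ⟨y, hy, U', hU', Λ, hΛ, ?_⟩
      intro u hu κ hκ
      exact h1 u hu κ (eig_quo V₁.mkQ V₁.mkQ_surjective _ _ (fun x => rfl) κ hκ))
    intro u hu
    exact nil_ext V₁ _ _ _ (fun x => rfl) (fun x => rfl) (e1 u hu) (e2 u hu)

end Pool.Agent.D0H23.TH
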