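import Pool.Agent.D0H45.TH.Stm

/-!
# Module IRR of project TH (helper45)
-/

set_option autoImplicit false

namespace Pool.Agent.D0H23.TH

open Module Pool.Agent.D0H45.TH

section

variable {F V G : Type} [Field F] [AddCommGroup V] [Module F V] [Group G]

/-- the twisted representation of `U` -/
noncomputable def tw (ρ : G →* Module.End F V) {U : Subgroup G} {ψ : G → F} (hψ : Tw ψ U) :
    U →* Module.End F V where
  toFun u := ψ u • ρ u
  map_one' := by simp [hψ.one]
  map_mul' u v := by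
    rw [Subgroup.coe_mul, hψ.mul u u.2 v v.2, map_mul, smul_mul_smul_comm]

theorem tw_apply (ρ : G →* Module.End F V) {U : Subgroup G} {ψ : G → F} (hψ : Tw ψ U) (u : U) :
    tw ρ hψ u = ψ u • ρ u := rfl

/-- restriction of a representation to a stable subspace -/
noncomputable def rep (T : G →* Module.End F V) (W : Submodule F V)
    (h : ∀ g, ∀ x ∈ W, T g x ∈ W) : G →* Module.End F W where
  toFun g := (T g).restrict (h g)
  map_one' := by ext x; simp
  map_mul' g g' := by ext x; simp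

theorem rep_apply (T : G →* Module.End F V) (W : Submodule F V)
    (h : ∀ g, ∀ x ∈ W, T g x ∈ W) (g : G) (x : W) : ((rep T W h g x : W) : V) = T g x := rfl

/-- the words -/
noncomputable def wd (σ : MulAut G) (u : G) : ℕ → G
  | 0 => 1
  | k + 1 => σ⁻¹ (wd σ u k) * u

theorem pow_eq {E : Type} [Monoid E] (T : G →* E) (σ : MulAut G) (B : E)
    (hB : ∀ u, B * T u = T (σ u) * B) (u : G) (k : ℕ) :
    (B * T u) ^ k = B ^ k * T (wd σ u k) := by
  induction k with
  | zero => simp [wd]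
  | succ k ih =>
    rw [pow_succ, ih, wd, map_mul, pow_succ]
    have h := hB (σ⁻¹ (wd σ u k))
    rw [MulAut.apply_inv_self] at h
    calc B ^ k * T (wd σ u k) * (B * T u) = B ^ k * (T (wd σ u k) * B) * T u := by
          simp only [mul_assoc]
      _ = B ^ k * (B * T (σ⁻¹ (wd σ u k))) * T u := by rw [h]
      _ = _ := by simp only [mul_assoc]

theorem pow_comm {E : Type} [Monoid E] (T : G →* E) (σ : MulAut G) (B : E)
    (hB : ∀ u, B * T u = T (σ u) * B) (k : ℕ) : ∀ u, B ^ k * T u = T ((σ ^ k) u) * B ^ k := by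
  induction k with
  | zero => intro u; simp
  | succ k ih =>
    intro u
    rw [pow_succ, mul_assoc, hB, ← mul_assoc, ih, mul_assoc, pow_succ, MulAut.mul_apply]

end

/-- finitely many eigenvalues: finitely many traces -/
theorem finite_trace {F W ι : Type} [Field F] [IsAlgClosed F] [AddCommGroup W] [Module F W]
    [Module.Finite F W] (K : Set F) (hK : K.Finite) (T : ι → Module.End F W)
    (hT : ∀ i, ∀ κ : F, (T i).HasEigenvalue κ → κ ∈ K) :
    {x : F | ∃ i, x = LinearMap.trace F W (T i)}.Finite := by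
  have := hK.to_subtype
  refine (Set.finite_range (fun f : Fin (finrank F W) → K => ∑ i, ((f i : K) : F))).subset ?_
  rintro x ⟨i, rfl⟩
  have hs : ∀ κ ∈ (T i).charpoly.roots, κ ∈ K := by
    intro κ hκ
    apply hT i
    rw [Module.End.hasEigenvalue_iff_isRoot_charpoly]
    exact Polynomial.isRoot_of_mem_roots hκ
  have htr : LinearMap.trace F W (T i) = (T i).charpoly.roots.sum :=
    Module.End.trace_eq_sum_roots_charpoly_of_splits (IsAlgClosed.splits _)
  have hcard : Multiset.card (T i).charpoly.roots = finrank F W := by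
    rw [← LinearMap.charpoly_natDegree (T i)]
    exact (IsAlgClosed.splits _).natDegree_eq_card_roots.symm
  rw [htr]
  generalize (T i).charpoly.roots = s at hs hcard
  induction s using Quotient.inductionOn with
  | h l =>
    simp only [Multiset.quot_mk_to_coe, Multiset.coe_card, Multiset.mem_coe] at hcard hs
    refine ⟨fun m => ⟨l.get (Fin.cast hcard.symm m), hs _ (List.get_mem _ _)⟩, ?_⟩
    simp only [Multiset.quot_mk_to_coe, Multiset.sum_coe]
    rw [← List.sum_ofFn]
    congr 1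
    apply List.ext_get
    · simp [hcard]
    · intro n h1 h2
      simp

theorem t_IRR : S_BURN → S_IRR := by
  intro hBURN F V G _ _ _ _ _ _ _ ρ U ψ 𝓤 hU hfin hψ hC W hWU hirr y A hAinj hA hev
  have hW : ∀ u : U, ∀ x ∈ W, tw ρ hψ u x ∈ W := by
    intro u x hx
    rw [tw_apply, LinearMap.smul_apply]
    exact W.smul_mem _ (hWU u u.2 x hx)
  set r := rep (tw ρ hψ) W hW with hr
  have hirr' : ∀ W' : Submodule F W, (∀ g : U, ∀ x ∈ W', r g x ∈ W') → W' = ⊥ ∨ W' = ⊤ := by
    intro W' h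
    have hinj : Function.Injective (Submodule.map W.subtype) :=
      Submodule.map_injective_of_injective W.injective_subtype
    have hst : ∀ u ∈ U, ∀ x ∈ W'.map W.subtype, ρ u x ∈ W'.map W.subtype := by
      rintro u hu _ ⟨x, hx, rfl⟩
      have h2 := W'.smul_mem (ψ u)⁻¹ (h ⟨u, hu⟩ x hx)
      refine ⟨_, h2, ?_⟩
      have h3 : ψ u ≠ 0 := hψ.ne u hu
      simp only [map_smul]
      change (ψ u)⁻¹ • (ψ u • ρ u (x : V)) = ρ u (x : V)
      rw [smul_smul, inv_mul_cancel₀ h3, one_smul]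
    rcases hirr (W'.map W.subtype) (Submodule.map_subtype_le W W') hst with h1 | h1
    · left
      exact hinj (h1.trans (Submodule.map_bot _).symm)
    · right
      exact hinj (h1.trans (Submodule.map_subtype_top W).symm)
  obtain ⟨hB1, hB2⟩ := hBURN F W U r hirr'
  -- the conjugation
  have hψc : ∀ (u : U) (g : G), ψ (g * u * g⁻¹) = ψ u := fun u g => hψ.conj u u.2 g
  set σ : MulAut U := MulAut.conjNormal y with hσ
  have hσc : ∀ u : U, ((σ u : U) : G) = y * u * y⁻¹ := fun u => MulAut.conjNormal_apply y u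
  have hAr : ∀ u : U, A * r u = r (σ u) * A := by
    intro u
    ext x
    have h1 := hA u u.2 x ((ψ u)⁻¹ • r u x) ((ψ u)⁻¹ • r (σ u) (A x)) ?_ ?_
    · have h2 := congrArg (fun z => ψ u • z) h1
      simp only [map_smul, smul_smul, mul_inv_cancel₀ (hψ.ne u u.2), one_smul] at h2
      simp only [Module.End.mul_apply]
      rw [h2]
    · change (ψ u)⁻¹ • (ψ u • ρ u (x : V)) = ρ u (x : V)
      rw [smul_smul, inv_mul_cancel₀ (hψ.ne u u.2), one_smul]
    · change (ψ u)⁻¹ • (ψ (σ u : U) • ρ (σ u : U) ((A x : W) : V)) = _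
      rw [hσc, hψc, smul_smul, inv_mul_cancel₀ (hψ.ne u u.2), one_smul]
  have hBr : ∀ u : U, ρ y * tw ρ hψ u = tw ρ hψ (σ u) * ρ y := by
    intro u
    rw [tw_apply, tw_apply, hσc, hψc, map_mul, map_mul, mul_smul_comm, smul_mul_assoc, mul_assoc,
      ← map_mul ρ y⁻¹ y, inv_mul_cancel, map_one, mul_one]
  obtain ⟨j, hj0, hj⟩ : ∃ j : ℕ, 0 < j ∧ y ^ j ∈ U := by
    refine ⟨Nat.card (G ⧸ U), Nat.card_pos, ?_⟩
    rw [← QuotientGroup.eq_one_iff, QuotientGroup.mk_pow]
    exact pow_card_eq_one'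
  set yj : U := ⟨y ^ j, hj⟩ with hyj
  have hσj : ∀ u : U, (σ ^ j) u = yj * u * yj⁻¹ := by
    intro u
    rw [hσ, ← map_pow]
    apply Subtype.ext
    rw [MulAut.conjNormal_apply]
    rfl
  obtain ⟨c, hc⟩ := hB1 (A ^ j * r yj⁻¹) (by
    intro u
    have h1 : r yj⁻¹ * r u = r (yj⁻¹ * u * yj) * r yj⁻¹ := by
      rw [← map_mul, ← map_mul]; congr 1; group
    rw [mul_assoc, h1, ← mul_assoc, pow_comm r σ A hAr, hσj, mul_assoc, ← mul_assoc (r u)]
    have h2 : yj * (yj⁻¹ * u * yj) * yj⁻¹ = u := by group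
    rw [h2, mul_assoc])
  have hAj : A ^ j = c • r yj := by
    have h1 : A ^ j = A ^ j * r yj⁻¹ * r yj := by
      rw [mul_assoc, ← map_mul, inv_mul_cancel, map_one, mul_one]
    rw [h1, hc, smul_one_mul]
  have hyW : ∀ x : W, ψ (yj : G) • ρ (y ^ j) (x : V) = ((r yj x : W) : V) := fun x => rfl
  obtain ⟨U', hU', Λ, hΛ, hev⟩ := hev
  have hle := hC.le U' hU'
  -- the possible eigenvalues
  set K : Set F := {0} ∪ ⋃ l ∈ Λ, {κ : F | κ ^ j = c * ψ yj * l ^ j} with hK
  have hKfin : K.Finite := by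
    classical
    refine (Set.finite_singleton 0).union (hΛ.biUnion fun l _ => ?_)
    have h1 : (Polynomial.X ^ j - Polynomial.C (c * ψ yj * l ^ j) : Polynomial F) ≠ 0 :=
      Polynomial.X_pow_sub_C_ne_zero hj0 _
    refine ((Polynomial.X ^ j - Polynomial.C (c * ψ yj * l ^ j) :
      Polynomial F).roots.toFinset.finite_toSet).subset ?_
    intro κ hκ
    simp only [Finset.mem_coe, Multiset.mem_toFinset, Polynomial.mem_roots h1,
      Polynomial.IsRoot.def, Polynomial.eval_sub, Polynomial.eval_pow, Polynomial.eval_X,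
      Polynomial.eval_C]
    exact sub_eq_zero.mpr hκ
  have hKey : ∀ (u : U), (u : G) ∈ U' → ∀ κ : F, (A * r u).HasEigenvalue κ → κ ∈ K := by
    intro u hu κ hκ
    obtain ⟨w, hw⟩ := hκ.exists_hasEigenvector
    have hw0 : w ≠ 0 := hw.2
    have h1 : ((A * r u) ^ j) w = κ ^ j • w := hw.pow_apply j
    rw [pow_eq r σ A hAr, hAj, smul_mul_assoc, ← map_mul, LinearMap.smul_apply] at h1
    have h2 : (((ρ y * tw ρ hψ u) ^ j) : Module.End F V) (w : V) =
        (ψ yj)⁻¹ • ((r (yj * wd σ u j) w : W) : V) := by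
      rw [pow_eq (tw ρ hψ) σ (ρ y) hBr, ← map_pow, Module.End.mul_apply]
      rw [map_mul, Module.End.mul_apply, ← hyW, smul_smul, inv_mul_cancel₀ (hψ.ne yj yj.2), one_smul]
      rfl
    have h3 : κ ^ j • (w : V) = (c * ψ yj) • (((ρ y * tw ρ hψ u) ^ j : Module.End F V) (w : V)) := by
      rw [h2, smul_smul, mul_assoc, mul_inv_cancel₀ (hψ.ne yj yj.2), mul_one]
      exact (congrArg Subtype.val h1).symm
    rcases eq_or_ne κ 0 with h0 | h0
    · left; exact h0
    right
    have hcψ : c * ψ yj ≠ 0 := by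
      intro h
      rw [h, zero_smul] at h3
      rcases smul_eq_zero.mp h3 with h4 | h4
      · exact h0 (pow_eq_zero_iff hj0.ne' |>.mp h4)
      · exact hw0 (Subtype.ext h4)
    have h5 : ((ρ y * tw ρ hψ u) ^ j : Module.End F V).HasEigenvalue (κ ^ j / (c * ψ yj)) := by
      apply Module.End.hasEigenvalue_of_hasEigenvector (x := (w : V))
      refine ⟨?_, fun h => hw0 (Subtype.ext h)⟩
      rw [Module.End.mem_eigenspace_iff, div_eq_inv_mul, mul_smul, h3, smul_smul,
        inv_mul_cancel₀ hcψ, one_smul]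
    rw [Module.End.hasEigenvalue_iff_mem_spectrum, spectrum.map_pow_of_pos _ hj0] at h5
    obtain ⟨l, hl, hl2⟩ := h5
    rw [← Module.End.hasEigenvalue_iff_mem_spectrum] at hl
    have h6 := hev u hu l hl
    refine Set.mem_biUnion h6 ?_
    change κ ^ j = c * ψ yj * l ^ j
    have h7 : l ^ j = κ ^ j / (c * ψ yj) := hl2
    rw [h7, mul_div_cancel₀ _ hcψ]
  -- the projection
  obtain ⟨p, hp⟩ := W.subtype.exists_leftInverse_of_injective (Submodule.ker_subtype W)
  have hpx : ∀ x : W, p (x : V) = x := fun x => LinearMap.congr_fun hp x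
  let L : Module.End F V →ₗ[F] F :=
    (LinearMap.trace F W) ∘ₗ (LinearMap.llcomp F W W W A) ∘ₗ (LinearMap.llcomp F W V W p) ∘ₗ
      (LinearMap.lcomp F V W.subtype)
  have hL : ∀ x : Module.End F V, L x = LinearMap.trace F W (A ∘ₗ p ∘ₗ x ∘ₗ W.subtype) := fun x => rfl
  have hL1 : ∀ u : U, L (ψ u • ρ u) = LinearMap.trace F W (A * r u) := by
    intro u
    rw [hL]
    congr 1
    ext x
    simp only [LinearMap.comp_apply, Module.End.mul_apply, Submodule.subtype_apply]
    congr 2
    exact hpx (r u x)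
  have hL2 : ∀ u : U, LinearMap.trace F W (A * r u) = LinearMap.trace F W A := by
    intro u
    have h1 := hC.const U' hU' L ?_ u u.2
    · rw [hL1 u] at h1
      rw [h1]
      have h2 := hL1 1
      rw [map_one, mul_one] at h2
      rw [← h2]
      simp [hψ.one]
    · refine (finite_trace K hKfin (fun u : {u : U // (u : G) ∈ U'} => A * r u)
        (fun u => hKey u u.2)).subset ?_
      rintro x ⟨v, hv, rfl⟩
      exact ⟨⟨⟨v, hle hv⟩, hv⟩, hL1 ⟨v, hle hv⟩⟩
  intro u hu x hx
  have h1 : A * (r ⟨u, hu⟩ - 1) = 0 := by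
    apply hB2
    intro v
    have h2 : A * (r ⟨u, hu⟩ - 1) * r v = A * r (⟨u, hu⟩ * v) - A * r v := by
      rw [map_mul, mul_sub, sub_mul, mul_one, mul_assoc]
    rw [h2, map_sub, hL2, hL2, sub_self]
  have h2 : A ((r ⟨u, hu⟩ - 1) ⟨x, hx⟩) = A 0 := by
    rw [map_zero, ← Module.End.mul_apply, h1, LinearMap.zero_apply]
  have h3 := hAinj h2
  rw [LinearMap.sub_apply, sub_eq_zero, Module.End.one_apply] at h3
  exact congrArg Subtype.val h3

end Pool.Agent.D0H23.TH
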